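import Pool.Agent.H27.Wnc2

set_option autoImplicit false

namespace Pool.Agent.Results.MP_4226b8_an.NotEquiv

open Filter Topology Set Pool.Agent.H27.Wnc
open scoped ENNReal NNReal

open Classical in
noncomputable def P (e : ℕ → ℕ →₀ ℕ) (i : ℕ) (s : Fin i → ℕ) : lp (fun _ : ℕ => ℂ) ∞ :=
  ⟨fun n => if s = fun j : Fin i => e n j then 1 else 0, memℓp_infty ⟨1, by
    rintro _ ⟨n, rfl⟩
    show ‖(if s = fun j : Fin i => e n j then 1 else 0 : ℂ)‖ ≤ 1
    split_ifs <;> simp⟩⟩

/-- On bounded subsets of the commutative von Neumann algebra of bounded complex sequences the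
De Blasi measure is not dominated by a multiple of `wk`. -/
theorem result (c : ℝ≥0) : ∃ A : Set (lp (fun _ : ℕ => ℂ) ∞), Bornology.IsBounded A ∧ A.Nonempty ∧
    (c : ℝ≥0∞) * wk A < omega A := by
  classical
  obtain ⟨e, he⟩ := exists_surjective_nat (ℕ →₀ ℕ)
  refine main (P := P e) (fun i F => ?_) (fun N t => ?_) c
  · refine lp.norm_le_of_forall_le zero_le_one fun n => ?_
    rw [lp.coeFn_sum, Finset.sum_apply]
    show ‖∑ s ∈ F, (if s = fun j : Fin i => e n j then 1 else 0 : ℂ)‖ ≤ 1
    rw [Finset.sum_ite_eq']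
    split_ifs <;> simp
  · obtain ⟨n, hn⟩ := he (Finsupp.onFinset (Finset.range N) (fun j => if j < N then t j else 0)
      fun j hj => Finset.mem_range.2 (by by_contra h; exact hj (if_neg h)))
    refine ⟨lp.evalCLM ℂ (fun _ : ℕ => ℂ) ∞ n, ?_, fun i hi s => ?_⟩
    · exact ContinuousLinearMap.opNorm_le_bound _ zero_le_one fun f => by
        rw [one_mul]; exact lp.norm_apply_le_norm ENNReal.top_ne_zero f n
    · have h1 : (fun j : Fin i => e n j) = fun j : Fin i => t j := by
        funext j
        rw [hn, Finsupp.onFinset_apply, if_pos (j.2.trans_le hi)]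
      show (if s = fun j : Fin i => e n j then 1 else 0 : ℂ) = _
      rw [h1]

end Pool.Agent.Results.MP_4226b8_an.NotEquiv
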